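import Pool.Agent.Q297.CodedMain

/-!
# There are continuum many axiomatic extensions of `FL_ew` with the deductive interpolation
property
-/

namespace Pool.Agent.Results.MP_db33a0_lc.ContinuumManyDIP

open Pool.Agent.Q297.Residuated Pool.Agent.Q297.CodedChains Cardinal

theorem good_flew : Good FLewCons where
  mem _ _ h := flewCons_mem h
  mp _ _ _ h1 h2 := flewCons_mp h1 h2
  sound _ _ h A _ v hv := h A v hv

/-- **Positive answer to Q1 of MP_db33a0_lc.**  The set of axiomatic extensions of `FL_ew` with
the deductive interpolation property is uncountable; in fact it has the cardinality of the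
continuum. -/
theorem result :
    ¬ {L : Set Fm → Fm → Prop | IsAxExt FLewCons L ∧ DIP L}.Countable ∧
      #{L : Set Fm → Fm → Prop // IsAxExt FLewCons L ∧ DIP L} = 𝔠 := by
  refine ⟨?_, card_eq good_flew⟩
  intro h
  have h1 : #{L : Set Fm → Fm → Prop // IsAxExt FLewCons L ∧ DIP L} ≤ ℵ₀ :=
    (Cardinal.le_aleph0_iff_set_countable
      (s := {L : Set Fm → Fm → Prop | IsAxExt FLewCons L ∧ DIP L})).mpr h
  rw [card_eq good_flew] at h1
  exact absurd h1 (not_le.mpr aleph0_lt_continuum)

end Pool.Agent.Results.MP_db33a0_lc.ContinuumManyDIP
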